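import Pool.Agent.K3h5.FF.Stm

/-!
# Riemann sums with almost everywhere convergence (brick RIE for helper5)
-/

set_option autoImplicit false

open MeasureTheory Filter Topology Set

namespace Pool.Agent.K3h23.FF

open Pool.Agent.K3h5.FF

/-- the cell of `a` -/
def cell {l : ℕ} (n : ℕ) (a : Fin l → Fin n) : Set (Fin l → ℝ) :=
  Set.pi univ fun i => Ico (((a i : ℕ) : ℝ) / n) ((((a i : ℕ) : ℝ) + 1) / n)

theorem mem_cell {l n : ℕ} (hn : 0 < n) (a : Fin l → Fin n) (x : Fin l → ℝ) :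
    x ∈ cell n a ↔ ∀ i, ⌊(n : ℝ) * x i⌋ = ((a i : ℕ) : ℤ) := by
  have hn' : (0 : ℝ) < n := Nat.cast_pos.2 hn
  unfold cell
  rw [Set.mem_univ_pi]
  refine forall_congr' fun i => ?_
  rw [Int.floor_eq_iff, mem_Ico, div_le_iff₀ hn', lt_div_iff₀ hn', mul_comm (x i)]
  push_cast
  exact Iff.rfl

theorem vol_cell {l n : ℕ} (hn : 0 < n) (a : Fin l → Fin n) :
    (volume (cell n a)).toReal = ((n : ℝ) ^ l)⁻¹ := by
  have hn' : (0 : ℝ) < n := Nat.cast_pos.2 hn
  unfold cell
  rw [Real.volume_pi_Ico_toReal]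
  · have h1 : ∀ i : Fin l, (((a i : ℕ) : ℝ) + 1) / n - ((a i : ℕ) : ℝ) / n = (n : ℝ)⁻¹ := by
      intro i
      field_simp
      ring
    simp_rw [h1]
    rw [Finset.prod_const, Finset.card_univ, Fintype.card_fin, inv_pow]
  · intro i
    exact div_le_div_of_nonneg_right (by linarith) hn'.le

theorem vol_cell_lt {l n : ℕ} (a : Fin l → Fin n) : volume (cell n a) < ⊤ := by
  unfold cell
  rw [Real.volume_pi_Ico]
  exact ENNReal.prod_lt_top fun i _ => ENNReal.ofReal_lt_top

theorem iUnion_cell {l n : ℕ} (hn : 0 < n) :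
    (⋃ a : Fin l → Fin n, cell n a) = Set.pi univ fun _ : Fin l => Ico (0 : ℝ) 1 := by
  have hn' : (0 : ℝ) < n := Nat.cast_pos.2 hn
  ext x
  rw [mem_iUnion, Set.mem_univ_pi]
  constructor
  · rintro ⟨a, ha⟩ i
    rw [mem_cell hn] at ha
    have h1 := Int.floor_eq_iff.1 (ha i)
    have h2 : ((a i : ℕ) : ℝ) + 1 ≤ n := by exact_mod_cast (a i).2
    have h3 : (0 : ℝ) ≤ ((a i : ℕ) : ℝ) := Nat.cast_nonneg _
    push_cast at h1
    constructor
    · by_contra hcon
      push Not at hcon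
      nlinarith
    · by_contra hcon
      push Not at hcon
      nlinarith
  · intro hx
    have h1 : ∀ i, 0 ≤ ⌊(n : ℝ) * x i⌋ ∧ ⌊(n : ℝ) * x i⌋ < n := by
      intro i
      constructor
      · exact Int.floor_nonneg.2 (mul_nonneg hn'.le (hx i).1)
      · rw [Int.floor_lt]
        have := (hx i).2
        push_cast
        nlinarith
    refine ⟨fun i => ⟨⌊(n : ℝ) * x i⌋.toNat, by have := h1 i; omega⟩, ?_⟩
    rw [mem_cell hn]
    intro i
    have := (h1 i).1
    simp only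
    omega

theorem sum_eq {l n : ℕ} (hn : 0 < n) (f : (Fin l → ℤ) → ℝ) :
    (∑ a : Fin l → Fin n, f (fun i => ((a i : ℕ) : ℤ))) / (n : ℝ) ^ l =
      ∫ x in {x : Fin l → ℝ | ∀ i, x i ∈ Ioo (0 : ℝ) 1}, f (fun i => ⌊(n : ℝ) * x i⌋) := by
  have h0 : ({x : Fin l → ℝ | ∀ i, x i ∈ Ioo (0 : ℝ) 1} : Set (Fin l → ℝ)) =
      Set.pi univ fun _ : Fin l => Ioo (0 : ℝ) 1 := by
    ext x
    rw [Set.mem_univ_pi]
    rfl
  have h1 : ({x : Fin l → ℝ | ∀ i, x i ∈ Ioo (0 : ℝ) 1} : Set (Fin l → ℝ)) =ᵐ[volume]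
      ⋃ a : Fin l → Fin n, cell n a := by
    rw [h0, iUnion_cell hn]
    exact (Measure.univ_pi_Ioo_ae_eq_Icc (μ := fun _ : Fin l => (volume : Measure ℝ))
      (f := fun _ => 0) (g := fun _ => 1)).trans
      (Measure.univ_pi_Ico_ae_eq_Icc (μ := fun _ : Fin l => (volume : Measure ℝ))
      (f := fun _ => 0) (g := fun _ => 1)).symm
  rw [setIntegral_congr_set h1]
  have hmeas : ∀ a : Fin l → Fin n, MeasurableSet (cell n a) := fun a =>
    MeasurableSet.univ_pi fun i => measurableSet_Ico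
  have hcongr : ∀ a : Fin l → Fin n, EqOn (fun x : Fin l → ℝ => f (fun i => ⌊(n : ℝ) * x i⌋))
      (fun _ => f (fun i => ((a i : ℕ) : ℤ))) (cell n a) := by
    intro a x hx
    rw [mem_cell hn] at hx
    simp only [hx]
  rw [integral_iUnion_fintype hmeas]
  · rw [Finset.sum_div]
    refine Finset.sum_congr rfl fun a _ => ?_
    rw [setIntegral_congr_fun (hmeas a) (hcongr a), setIntegral_const, smul_eq_mul,
      Measure.real, vol_cell hn]
    rw [div_eq_mul_inv, mul_comm]
  · intro a b hab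
    refine Set.disjoint_left.2 fun x hx hx' => hab ?_
    rw [mem_cell hn] at hx hx'
    funext i
    have := (hx i).symm.trans (hx' i)
    exact Fin.ext (by exact_mod_cast this)
  · intro a
    refine (integrableOn_const (vol_cell_lt a).ne).congr_fun (hcongr a).symm (hmeas a)

theorem t_RIE : S_RIE := by
  intro l f K g hK hlim
  have h1 : Tendsto (fun n : ℕ => ∫ x in {x : Fin l → ℝ | ∀ i, x i ∈ Ioo (0 : ℝ) 1},
      f n (fun i => ⌊(n : ℝ) * x i⌋)) atTop
      (𝓝 (∫ x in {x : Fin l → ℝ | ∀ i, x i ∈ Ioo (0 : ℝ) 1}, g x)) := by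
    refine tendsto_integral_filter_of_dominated_convergence (fun _ => K) ?_ ?_ ?_ hlim
    · refine Eventually.of_forall fun n => ?_
      have h2 : Measurable (fun x : Fin l → ℝ => fun i => ⌊(n : ℝ) * x i⌋) :=
        measurable_pi_lambda _ fun i => Int.measurable_floor.comp
          ((measurable_pi_apply i).const_mul _)
      exact ((measurable_of_countable (f n)).comp h2).aestronglyMeasurable
    · filter_upwards [hK] with n hn
      exact Eventually.of_forall fun x => hn _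
    · refine integrableOn_const ?_
      have h0 : ({x : Fin l → ℝ | ∀ i, x i ∈ Ioo (0 : ℝ) 1} : Set (Fin l → ℝ)) =
          Set.pi univ fun _ : Fin l => Ioo (0 : ℝ) 1 := by
        ext x
        rw [Set.mem_univ_pi]
        rfl
      rw [h0, Real.volume_pi_Ioo]
      exact (ENNReal.prod_lt_top fun i _ => ENNReal.ofReal_lt_top).ne
  refine h1.congr' ?_
  filter_upwards [eventually_gt_atTop 0] with n hn
  exact (sum_eq hn (f n)).symm

end Pool.Agent.K3h23.FF
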